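import Pool.Agent.Q3.ExpK.Main

set_option autoImplicit false

open Filter Topology Set TopologicalSpace
open scoped Pointwise

namespace Pool.Agent.Results.MP_098a03_an.PositiveDimension

open Pool.Agent.Q3.ExpK

/-- The typical compact `K ⊆ [0,1]` has `dim_H exp(K) > 0`; this holds for every compact `K` with
two distinct positive points. -/
theorem result :
    (∀ K : NonemptyCompacts (Icc (0 : ℝ) 1), Tendsto (pexpC K) atTop (𝓝 (expK K))) ∧
    (∀ K : NonemptyCompacts (Icc (0 : ℝ) 1), (∃ x ∈ real K, ∃ y ∈ real K, 0 < y ∧ y < x) →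
      0 < dimH (expK K : Set ℝ)) ∧
    IsMeagre {K : NonemptyCompacts (Icc (0 : ℝ) 1) | dimH (expK K : Set ℝ) = 0} ∧
    ¬ IsMeagre {K : NonemptyCompacts (Icc (0 : ℝ) 1) | 0 < dimH (expK K : Set ℝ)} :=
  ⟨tendsto_expK, dimH_expK_pos, meagre_zero, not_meagre_pos⟩

end Pool.Agent.Results.MP_098a03_an.PositiveDimension
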